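import Mathlib
import Pool.Agent.Lib.helper24.Misere

set_option autoImplicit false

namespace Pool.Agent.Results.MP_bc0e65_co.FiveEight

open Pool.Agent.Lib.helper24.Misere

/-- Positions: the numbers of components of each of five types. -/
abbrev V := ℕ × ℕ × ℕ × ℕ × ℕ

/-- A move removes one component and adds components of lower types. -/
def opt (M : List (V × V)) (c c' : V) : Prop := ∃ m ∈ M, m.1 ≤ c ∧ c' = c - m.1 + m.2

def red (t p n : ℕ) : ℕ := bif Nat.ble t n then Nat.add t (Nat.mod (Nat.sub n t) p) else n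

theorem red_eq (t p n : ℕ) : red t p n = if n < t then n else t + (n - t) % p := by
  unfold red
  split_ifs with h
  · rw [Bool.eq_false_iff.2 fun h' => absurd (Nat.le_of_ble_eq_true h') (by omega)]
    rfl
  · rw [Nat.ble_eq_true_of_le (by omega)]
    rfl

def R (t p c : V) : V :=
  (red t.1 p.1 c.1, red t.2.1 p.2.1 c.2.1, red t.2.2.1 p.2.2.1 c.2.2.1,
    red t.2.2.2.1 p.2.2.2.1 c.2.2.2.1, red t.2.2.2.2 p.2.2.2.2 c.2.2.2.2)

def outF (t p : V) (T : ℕ) (a b c d e : ℕ) : Bool :=
  !(T.testBit (Nat.add (red t.1 p.1 a) (Nat.mul 2 (Nat.add (red t.2.1 p.2.1 b) (Nat.mul 6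
    (Nat.add (red t.2.2.1 p.2.2.1 c) (Nat.mul 6 (Nat.add (red t.2.2.2.1 p.2.2.2.1 d)
      (Nat.mul 6 (red t.2.2.2.2 p.2.2.2.2 e))))))))))

def outB (t p : V) (T : ℕ) (c : V) : Bool := outF t p T c.1 c.2.1 c.2.2.1 c.2.2.2.1 c.2.2.2.2

def leB (a b : V) : Bool :=
  a.1.ble b.1 && a.2.1.ble b.2.1 && a.2.2.1.ble b.2.2.1 && a.2.2.2.1.ble b.2.2.2.1 &&
    a.2.2.2.2.ble b.2.2.2.2

theorem leB_iff (a b : V) : leB a b = true ↔ a ≤ b := by
  simp [leB, Prod.le_def, and_assoc]

def chk (M : List (V × V)) (t p : V) (T : ℕ) (d : V) : Bool :=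
  outB t p T d == (M.all (fun m => !leB m.1 d) ||
    M.any fun m => leB m.1 d && !outF t p T (Nat.add (Nat.sub d.1 m.1.1) m.2.1)
      (Nat.add (Nat.sub d.2.1 m.1.2.1) m.2.2.1) (Nat.add (Nat.sub d.2.2.1 m.1.2.2.1) m.2.2.2.1)
      (Nat.add (Nat.sub d.2.2.2.1 m.1.2.2.2.1) m.2.2.2.2.1)
      (Nat.add (Nat.sub d.2.2.2.2 m.1.2.2.2.2) m.2.2.2.2.2))

theorem chk_eq (M : List (V × V)) (t p : V) (T : ℕ) (d : V) :
    chk M t p T d = (outB t p T d == (M.all (fun m => !leB m.1 d) ||
      M.any fun m => leB m.1 d && !outB t p T (d - m.1 + m.2))) := rfl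

def chkAll (M : List (V × V)) (t p : V) (T : ℕ) : Bool :=
  (List.range (t.1 + 1 + p.1)).all fun a => (List.range (t.2.1 + 1 + p.2.1)).all fun b =>
    (List.range (t.2.2.1 + 1 + p.2.2.1)).all fun c =>
      (List.range (t.2.2.2.1 + 1 + p.2.2.2.1)).all fun d =>
        (List.range (t.2.2.2.2 + 1 + p.2.2.2.2)).all fun e => chk M t p T (a, b, c, d, e)

def w (c : V) : ℕ := c.1 + 3 * c.2.1 + 9 * c.2.2.1 + 27 * c.2.2.2.1 + 81 * c.2.2.2.2

def sz (c : V) : ℕ := c.1 + c.2.1 + c.2.2.1 + c.2.2.2.1 + c.2.2.2.2

theorem red_lt (t p n : ℕ) (hp : 0 < p) : red t p n < t + p := by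
  rw [red_eq]
  split_ifs
  · omega
  · have := Nat.mod_lt (n - t) hp
    omega

theorem red_add (t p n k : ℕ) (h : t ≤ n) : red t p (n + p * k) = red t p n := by
  rw [red_eq, red_eq, if_neg (by omega), if_neg (by omega), show n + p * k - t = n - t + p * k by omega,
    Nat.add_mul_mod_self_left]

theorem red_le (t p n e : ℕ) (he : e ≤ 1) : e ≤ red (t + 1) p n ↔ e ≤ n := by
  rw [red_eq]
  split_ifs <;> omega

theorem red_step (t p n e j : ℕ) (he : e ≤ 1) :
    red t p (red (t + 1) p n - e + j) = red t p (n - e + j) := by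
  by_cases h : n < t + 1
  · rw [show red (t + 1) p n = n by rw [red_eq, if_pos h]]
  · rw [show red (t + 1) p n = t + 1 + (n - (t + 1)) % p by rw [red_eq, if_neg h],
      ← red_add t p _ ((n - (t + 1)) / p) (by omega)]
    have := Nat.mod_add_div (n - (t + 1)) p
    congr 1
    omega

theorem main (M : List (V × V)) (t p : V) (T : ℕ)
    (hM : ∀ m ∈ M, sz m.1 = 1 ∧ w m.2 < w m.1)
    (hp : 0 < p.1 ∧ 0 < p.2.1 ∧ 0 < p.2.2.1 ∧ 0 < p.2.2.2.1 ∧ 0 < p.2.2.2.2)
    (hc : chkAll M t p T = true) (c : V) (q m : ℕ) (hq : 1 ≤ q) (hm : 1 ≤ m)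
    (h1 : ∀ e, outB t p T ((m + q) • c + e) = outB t p T (m • c + e))
    (h2 : ∀ r k, 1 ≤ r → r < q → 1 ≤ k →
      ∃ e, outB t p T ((k + r) • c + e) ≠ outB t p T (k • c + e)) :
    ∃ (A : Set Game) (x : Game), Closed A ∧ x ∈ A ∧ HasPeriod A x q := by
  refine hasPeriod (opt := opt M) ?_ ?_ ?_ ?_ (fun c => outB t p T c = true) ?_ c q m hq hm
    (fun e => by rw [h1 e]) ?_
  · intro c d z
    constructor
    · rintro ⟨m, hm, h, rfl⟩
      have := (hM m hm).1
      by_cases h' : m.1 ≤ c
      · refine Or.inl ⟨_, ⟨m, hm, h', rfl⟩, ?_⟩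
        simp only [Prod.le_def, Prod.ext_iff, Prod.fst_add, Prod.snd_add, Prod.fst_sub,
          Prod.snd_sub, sz] at *
        omega
      · refine Or.inr ⟨_, ⟨m, hm, ?_, rfl⟩, ?_⟩ <;>
        · simp only [Prod.le_def, Prod.ext_iff, Prod.fst_add, Prod.snd_add, Prod.fst_sub,
            Prod.snd_sub, sz] at *
          omega
    · rintro (⟨c', ⟨m, hm, h, rfl⟩, rfl⟩ | ⟨c', ⟨m, hm, h, rfl⟩, rfl⟩) <;>
      · refine ⟨m, hm, ?_, ?_⟩ <;>
        · simp only [Prod.le_def, Prod.ext_iff, Prod.fst_add, Prod.snd_add, Prod.fst_sub,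
            Prod.snd_sub] at *
          omega
  · rintro z ⟨m, hm, h, -⟩
    have := (hM m hm).1
    simp only [Prod.le_def, sz, Prod.fst_zero, Prod.snd_zero] at *
    omega
  · refine Subrelation.wf (r := InvImage (· < ·) w) ?_ (InvImage.wf w wellFounded_lt)
    rintro a b ⟨m, hm, h, rfl⟩
    have := (hM m hm).2
    simp only [InvImage, Prod.le_def, Prod.fst_add, Prod.snd_add, Prod.fst_sub,
      Prod.snd_sub, w] at *
    omega
  · intro c
    refine ((M.map fun m => c - m.1 + m.2).finite_toSet).subset ?_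
    rintro z ⟨m, hm, -, rfl⟩
    exact List.mem_map.2 ⟨m, hm, rfl⟩
  · intro c
    set d := R (t + (1, 1, 1, 1, 1)) p c with hd
    have hk : chk M t p T d = true := by
      simp only [chkAll, List.all_eq_true, List.mem_range] at hc
      exact hc _ (red_lt _ _ _ hp.1) _ (red_lt _ _ _ hp.2.1) _ (red_lt _ _ _ hp.2.2.1) _
        (red_lt _ _ _ hp.2.2.2.1) _ (red_lt _ _ _ hp.2.2.2.2)
    have e1 : ∀ a b : V, a ≤ (1, 1, 1, 1, 1) →
        outB t p T (d - a + b) = outB t p T (c - a + b) := by
      intro a b h
      simp only [Prod.le_def] at h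
      simp only [outB, outF, hd, R, Prod.fst_add, Prod.snd_add, Prod.fst_sub, Prod.snd_sub,
        red_step _ _ _ _ _ h.1, red_step _ _ _ _ _ h.2.1, red_step _ _ _ _ _ h.2.2.1,
        red_step _ _ _ _ _ h.2.2.2.1, red_step _ _ _ _ _ h.2.2.2.2]
    have e2 : ∀ a : V, a ≤ (1, 1, 1, 1, 1) → (a ≤ d ↔ a ≤ c) := by
      intro a h
      simp only [Prod.le_def] at h
      simp only [hd, R, Prod.le_def, Prod.fst_add, Prod.snd_add,
        red_le _ _ _ _ h.1, red_le _ _ _ _ h.2.1, red_le _ _ _ _ h.2.2.1,
        red_le _ _ _ _ h.2.2.2.1, red_le _ _ _ _ h.2.2.2.2]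
    have e3 : ∀ m ∈ M, m.1 ≤ (1, 1, 1, 1, 1) := by
      intro m hm
      have := (hM m hm).1
      simp only [Prod.le_def, sz] at *
      omega
    have e0 : outB t p T d = outB t p T c := by
      simpa using e1 0 0 (by simp)
    rw [chk_eq, beq_iff_eq, e0] at hk
    rw [hk]
    simp only [Bool.or_eq_true, List.all_eq_true, List.any_eq_true, Bool.and_eq_true,
      Bool.not_eq_true', ← Bool.not_eq_true, leB_iff]
    refine or_congr ⟨fun h z ⟨m, hm, h', _⟩ => h m hm ((e2 _ (e3 m hm)).2 h'),
      fun h m hm h' => h _ ⟨m, hm, (e2 _ (e3 m hm)).1 h', rfl⟩⟩ ⟨?_, ?_⟩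
    · rintro ⟨m, hm, h, h'⟩
      exact ⟨_, ⟨m, hm, (e2 _ (e3 m hm)).1 h, rfl⟩, by rwa [← e1 _ _ (e3 m hm)]⟩
    · rintro ⟨z, ⟨m, hm, h, rfl⟩, h'⟩
      exact ⟨m, hm, (e2 _ (e3 m hm)).2 h, by rwa [e1 _ _ (e3 m hm)]⟩
  · intro r k h1 h2' h3
    obtain ⟨e, he⟩ := h2 r k h1 h2' h3
    exact ⟨e, fun h => he (Bool.eq_iff_iff.2 h)⟩

theorem outB_add (t p : V) (T : ℕ) (a b c d n k : ℕ) (h : t.2.2.2.2 ≤ n) :
    outB t p T (a, b, c, d, n + p.2.2.2.2 * k) = outB t p T (a, b, c, d, n) := by
  simp only [outB, outF, red_add _ _ _ _ h]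

def MA : List (V × V) :=
  [((1, 0, 0, 0, 0), (0, 0, 0, 0, 0)),
   ((0, 1, 0, 0, 0), (1, 0, 0, 0, 0)),
   ((0, 1, 0, 0, 0), (0, 0, 0, 0, 0)),
   ((0, 0, 1, 0, 0), (0, 2, 0, 0, 0)),
   ((0, 0, 1, 0, 0), (0, 0, 0, 0, 0)),
   ((0, 0, 1, 0, 0), (0, 1, 0, 0, 0)),
   ((0, 0, 0, 1, 0), (0, 2, 0, 0, 0)),
   ((0, 0, 0, 1, 0), (1, 0, 0, 0, 0)),
   ((0, 0, 0, 1, 0), (0, 0, 1, 0, 0)),
   ((0, 0, 0, 1, 0), (0, 0, 2, 0, 0)),
   ((0, 0, 0, 0, 1), (0, 0, 0, 0, 0)),
   ((0, 0, 0, 0, 1), (0, 0, 1, 0, 0)),
   ((0, 0, 0, 0, 1), (0, 1, 0, 0, 0)),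
   ((0, 0, 0, 0, 1), (0, 0, 0, 1, 0)),
   ((0, 0, 0, 0, 1), (0, 0, 1, 1, 0))]

def TA : ℕ := 11096099479052645491155978654596165607143502590340812187904308534871543671758943204963837880765219436966709172929976339099287675667787749271709612920990433938615938342586214377529117788029223053152445012443417548069931905247457830454220428259735205766085999468387980205814324824665930495832300446961929268304192492402916127932745927614422607511835592834346311303644741845837622823016452902640025826352707557046753027733234473293195675225825594335492815307641605056642594628537659757200192493052446261613995636901614211218784761005540440240137679699888901715099070523157246452535851998899793918464623767354000673853432862692109420444618020680117016683479700242710672987084929329279978807614032022314121705764127858972491350453835327844298527344210380676954223317082823108033499648522174838212775967919225082523371225590884689362603553924617008120395709205484787455917993633564829138283101024622559702218319423748335781565513667908152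958719316445530037995419518349535588023954860663774758407587459742777080015188782123695020595961387014480800515504253468371654345178025540613685448558701768605103461318369059469557386215083212173646580061371117460097024621784452917521514645598832178380605006152741412785984736537701110797420588069416528843562962922694116616737530213074327678980125385275296301922867100676203881838124072011436778727895121851318324486685673174185073928414418876896678027272235195238239262191871651897796028038560542410443789726605720842559591117751262473471072873137328281767036532205363373871730494841716357072877031012204669347519772750267590223179571594446847500959671680943848092059189765409621030967657980171571085035425263960932896525547608582278783353761741641266797096097230386627409138011312899115824886529852435995607274148777599428454735564818669206203439627521388994320304465849736416390337213843903106119747753033126389892366583707383425770312025562032757140150527646865876296452795322855968909612279171070766197021438163464687288351275509759103706637496975246827002730137913013599643245213481333821660869332786228767076894712037650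

def MB : List (V × V) :=
  [((1, 0, 0, 0, 0), (0, 0, 0, 0, 0)),
   ((0, 1, 0, 0, 0), (1, 0, 0, 0, 0)),
   ((0, 1, 0, 0, 0), (2, 0, 0, 0, 0)),
   ((0, 0, 1, 0, 0), (0, 2, 0, 0, 0)),
   ((0, 0, 1, 0, 0), (2, 0, 0, 0, 0)),
   ((0, 0, 0, 1, 0), (0, 1, 0, 0, 0)),
   ((0, 0, 0, 1, 0), (0, 1, 1, 0, 0)),
   ((0, 0, 0, 1, 0), (0, 0, 1, 0, 0)),
   ((0, 0, 0, 0, 1), (0, 0, 0, 0, 0)),
   ((0, 0, 0, 0, 1), (0, 0, 0, 1, 0)),
   ((0, 0, 0, 0, 1), (0, 0, 1, 0, 0)),
   ((0, 0, 0, 0, 1), (0, 1, 0, 0, 0))]

def TB : ℕ := 195619685637652559462433233194614694023518758695767249886594932274144372349326875550141071630844566359960275667286865241677873626143121475333995520110688586590568714262215936189989969909626241647790072147545936658680890971468085189441387632933213226750081157246024164197715218087318577028896303972015504371580232194905420703383046882368342723382338816327363729758606419046884074125613442956462763147868605288522800056685820216503531553710422164833396098693020906295380641044508673510507800969623943798182038487270769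040985040819900629757731104873902716595945913084952431270137341296381990690747787541393405490744391315636998861041761345062501825928091337372205177326812029212060268657212579454564494956821750974553165794545318266131919931449299291941470118338502325270121617696625810913590132080175277699898297959530699094067651112161623332590002942166247084375265173106814004002276204719722050745226125773431299765264241769025109401713970291578880979985906919028357737027379466352058365697509482663740384828021746571676977507239610394748308617681340101924810127952563149717644805900705624695080527424000901239749944694820119315473908020960046333299109944825972133312763799727006676620849806856093430075093935447599853064904948314425959396999512932372232805713196257276065870389359436617732913647681132996324495608496716330494455258639319492014954926127922166684705385366627377205107168702675593190605440367977555874547047671542490143132610855605803227589625157337661426076987663737409843771433515363941349214239726759802873429088820019474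

theorem chkA : chkAll MA (0, 3, 3, 4, 6) (2, 2, 2, 2, 10) TA = true := by decide +kernel

theorem chkB : chkAll MB (0, 4, 4, 3, 4) (2, 2, 2, 2, 8) TB = true := by decide +kernel

/-- There is a misère quotient with an element of period `5`, and one with an element of
period `8`. -/
theorem result : ∀ p ∈ ({5, 8} : Set ℕ),
    ∃ (A : Set Game) (x : Game), Closed A ∧ x ∈ A ∧ HasPeriod A x p := by
  rintro p (rfl | rfl)
  · refine main MA _ _ TA (by decide) (by decide) chkA (0, 0, 0, 0, 2) 5 3 (by decide) (by decide)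
      ?_ ?_
    · rintro ⟨a, b, c, d, e⟩
      simpa [show 16 + e = 6 + e + 10 * 1 by omega] using
        outB_add (0, 3, 3, 4, 6) (2, 2, 2, 2, 10) TA a b c d (6 + e) 1 (by simp)
    · intro r k h1 h2 _
      refine ⟨(0, 0, 0, 0, 8 * k + 6), ?_⟩
      have e1 := outB_add (0, 3, 3, 4, 6) (2, 2, 2, 2, 10) TA 0 0 0 0 (6 + 2 * r) k (by simp)
      have e2 := outB_add (0, 3, 3, 4, 6) (2, 2, 2, 2, 10) TA 0 0 0 0 6 k (by simp)
      rw [show (k + r) • ((0, 0, 0, 0, 2) : V) + (0, 0, 0, 0, 8 * k + 6) =
          (0, 0, 0, 0, 6 + 2 * r + 10 * k) by simp; omega,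
        show k • ((0, 0, 0, 0, 2) : V) + (0, 0, 0, 0, 8 * k + 6) = (0, 0, 0, 0, 6 + 10 * k) by
          simp; omega]
      refine fun h => (?_ : _ ≠ _) (e1.symm.trans (h.trans e2))
      interval_cases r <;> decide +kernel
  · refine main MB _ _ TB (by decide) (by decide) chkB (0, 0, 0, 0, 1) 8 4 (by decide) (by decide)
      ?_ ?_
    · rintro ⟨a, b, c, d, e⟩
      simpa [show 12 + e = 4 + e + 8 * 1 by omega] using
        outB_add (0, 4, 4, 3, 4) (2, 2, 2, 2, 8) TB a b c d (4 + e) 1 (by simp)
    · intro r k h1 h2 _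
      refine ⟨(1, 0, 0, 2, 7 * k + 6), ?_⟩
      have e1 := outB_add (0, 4, 4, 3, 4) (2, 2, 2, 2, 8) TB 1 0 0 2 (6 + r) k (by simp; omega)
      have e2 := outB_add (0, 4, 4, 3, 4) (2, 2, 2, 2, 8) TB 1 0 0 2 6 k (by simp)
      rw [show (k + r) • ((0, 0, 0, 0, 1) : V) + (1, 0, 0, 2, 7 * k + 6) =
          (1, 0, 0, 2, 6 + r + 8 * k) by simp; omega,
        show k • ((0, 0, 0, 0, 1) : V) + (1, 0, 0, 2, 7 * k + 6) = (1, 0, 0, 2, 6 + 8 * k) by
          simp; omega]
      refine fun h => (?_ : _ ≠ _) (e1.symm.trans (h.trans e2))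
      interval_cases r <;> decide +kernel

end Pool.Agent.Results.MP_bc0e65_co.FiveEight
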